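import Pool.Agent.KS6_87.BR.Defs

set_option autoImplicit false

namespace Pool.Agent.KS6_87.BR

open Finset

/-! ### The chain of agents -/

/-- Agent `v` in its active state serves the second site of agent `w`. -/
def Rel (v w : ℕ) : Prop :=
  w = v ∨ w = v + 1 ∨ (v % 3 = 0 ∧ w = v + 3) ∨ (v % 3 = 1 ∧ w = v + 2)

instance : DecidableRel Rel := fun v w => by unfold Rel; infer_instance

/-- The scale of an agent. -/
noncomputable def sc (v : ℕ) : ℝ := (1 / 25 : ℝ) ^ v

theorem sc_pos (v : ℕ) : 0 < sc v := by unfold sc; positivity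

theorem sc_le {v w : ℕ} (h : v < w) : 25 * sc w ≤ sc v := by
  unfold sc
  have h2 : (1 / 25 : ℝ) ^ w ≤ (1 / 25 : ℝ) ^ (v + 1) :=
    pow_le_pow_of_le_one (by norm_num) (by norm_num) h
  rw [pow_succ] at h2
  linarith

/-- The rate of the first site of an agent. -/
noncomputable def rA (v : ℕ) : ℝ := if v % 3 = 0 ∧ v ≠ 0 then 5 * sc v else 3 * sc v

/-- The rate of the second site of an agent. -/
noncomputable def rB (v : ℕ) : ℝ := if v % 3 = 0 ∧ v ≠ 0 then 12 * sc v else 4 * sc v

theorem rA_pos (v : ℕ) : 0 < rA v := by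
  have := sc_pos v
  unfold rA
  split_ifs <;> linarith

theorem rB_pos (v : ℕ) : 0 < rB v := by
  have := sc_pos v
  unfold rB
  split_ifs <;> linarith

theorem rB_le (v : ℕ) : rB v ≤ 12 * sc v := by
  have := sc_pos v
  unfold rB
  split_ifs <;> linarith

/-- The second strategy of agent `v`. -/
def FF (n : ℕ) (v : Fin n) : Finset (Fin n × Bool) :=
  univ.filter fun z => z.2 = true ∧ Rel v.val z.1.val

theorem mem_FF {n : ℕ} {v : Fin n} {z : Fin n × Bool} :
    z ∈ FF n v ↔ z.2 = true ∧ Rel v.val z.1.val := by simp [FF]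

theorem card_FF (n : ℕ) (v : Fin n) : #(FF n v) ≤ 3 := by
  have h : #(FF n v) ≤
      #({v.val, v.val + 1, (if v.val % 3 = 0 then v.val + 3 else v.val + 2)} : Finset ℕ) := by
    refine Finset.card_le_card_of_injOn (fun z => z.1.val) ?_ ?_
    · intro z hz
      rw [Finset.mem_coe, mem_FF] at hz
      obtain ⟨-, h⟩ := hz
      simp only [Finset.coe_insert, Finset.coe_singleton, Set.mem_insert_iff,
        Set.mem_singleton_iff]
      rcases h with h | h | ⟨h0, h⟩ | ⟨h0, h⟩
      · exact Or.inl h
      · exact Or.inr (Or.inl h)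
      · rw [if_pos h0]
        exact Or.inr (Or.inr h)
      · rw [if_neg (by omega)]
        exact Or.inr (Or.inr h)
    · rintro ⟨z, b⟩ hz ⟨w, c⟩ hw h
      rw [Finset.mem_coe, mem_FF] at hz hw
      simp only at h hz hw
      rw [hz.1, hw.1, Fin.ext h]
  exact h.trans Finset.card_le_three

/-- The game. -/
noncomputable def chain (n : ℕ) (a b : ℝ) (ha : 0 < a) (hb : 0 < b) :
    Game (Fin n) (Fin n × Bool) where
  interested v := insert (v, false) (FF n v)
  rate z := if z.2 then rB z.1.val else rA z.1.val
  cost z := if z.2 then a else b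
  budget _ := max b (3 * a)
  rate_pos z := by
    split_ifs
    · exact rB_pos _
    · exact rA_pos _
  cost_pos z := by split_ifs <;> assumption
  budget_pos _ := lt_max_of_lt_left hb

/-- The strategy chosen by the Boolean state `x`. -/
def strat (n : ℕ) (x : ℕ → Bool) (v : Fin n) : Finset (Fin n × Bool) :=
  if x v.val then FF n v else {(v, false)}

section

variable {n : ℕ} {a b : ℝ} (ha : 0 < a) (hb : 0 < b)

theorem self_mem_FF (v : Fin n) : (v, true) ∈ FF n v := mem_FF.2 ⟨rfl, Or.inl rfl⟩

theorem not_mem_FF (v w : Fin n) : (w, false) ∉ FF n v := fun h => by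
  have := (mem_FF.1 h).1
  simp at this

theorem feasible_single (v : Fin n) : Feasible (chain n a b ha hb) v {(v, false)} := by
  refine ⟨by simp [chain], ?_⟩
  simp [chain]

theorem cost_FF (v : Fin n) (t : Finset (Fin n × Bool)) (ht : t ⊆ FF n v) :
    ∑ i ∈ t, (chain n a b ha hb).cost i = #t * a := by
  rw [Finset.sum_congr rfl (fun i hi => show (chain n a b ha hb).cost i = a by
    have := (mem_FF.1 (ht hi)).1
    simp [chain, this])]
  rw [Finset.sum_const, nsmul_eq_mul]

theorem feasible_FF (v : Fin n) : Feasible (chain n a b ha hb) v (FF n v) := by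
  refine ⟨Finset.subset_insert _ _, ?_⟩
  rw [cost_FF ha hb v _ subset_rfl]
  have h : ((#(FF n v) : ℕ) : ℝ) ≤ 3 := by exact_mod_cast card_FF n v
  refine le_trans ?_ (le_max_right _ _)
  exact mul_le_mul_of_nonneg_right h ha.le

theorem feasible_strat (x : ℕ → Bool) (v : Fin n) :
    Feasible (chain n a b ha hb) v (strat n x v) := by
  unfold strat
  split_ifs
  · exact feasible_FF ha hb v
  · exact feasible_single ha hb v

include ha hb in
theorem feasible_cases (hab : 2 * a < b) (v : Fin n) (t : Finset (Fin n × Bool))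
    (ht : Feasible (chain n a b ha hb) v t) : t = {(v, false)} ∨ t ⊆ FF n v := by
  by_cases hm : (v, false) ∈ t
  · left
    by_contra hne
    obtain ⟨z, hz, hzne⟩ : ∃ z ∈ t, z ≠ (v, false) := by
      by_contra hcon
      push Not at hcon
      apply hne
      ext z
      rw [Finset.mem_singleton]
      exact ⟨fun h => hcon z h, fun h => h ▸ hm⟩
    have h1 : ({(v, false), z} : Finset (Fin n × Bool)) ⊆ t := by
      intro w hw
      rw [Finset.mem_insert, Finset.mem_singleton] at hw
      rcases hw with rfl | rfl
      · exact hm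
      · exact hz
    have h2 : ∑ i ∈ ({(v, false), z} : Finset (Fin n × Bool)), (chain n a b ha hb).cost i ≤
        ∑ i ∈ t, (chain n a b ha hb).cost i :=
      Finset.sum_le_sum_of_subset_of_nonneg h1
        fun i _ _ => ((chain n a b ha hb).cost_pos i).le
    rw [Finset.sum_pair (Ne.symm hzne)] at h2
    have h3 : ∑ i ∈ t, (chain n a b ha hb).cost i ≤ max b (3 * a) := ht.2
    have h4 : (chain n a b ha hb).cost (v, false) = b := by simp [chain]
    have h5 := ht.1 hz
    have h6 : z ∈ FF n v := (Finset.mem_insert.1 h5).resolve_left hzne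
    have h7 : (chain n a b ha hb).cost z = a := by simp [chain, (mem_FF.1 h6).1]
    rw [h4, h7] at h2
    rcases le_max_iff.1 (h2.trans h3) with h | h <;> linarith
  · right
    intro z hz
    exact (Finset.mem_insert.1 (ht.1 hz)).resolve_left fun h => hm (h ▸ hz)

theorem value_single (S : Fin n → Finset (Fin n × Bool)) (v : Fin n) :
    value (chain n a b ha hb) S v {(v, false)} =
      rA v.val / (others S v (v, false) + 1 : ℕ) := by
  simp [value, chain]

theorem term_nonneg (S : Fin n → Finset (Fin n × Bool)) (v : Fin n) (z : Fin n × Bool) :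
    0 ≤ (chain n a b ha hb).rate z / (others S v z + 1 : ℕ) :=
  div_nonneg ((chain n a b ha hb).rate_pos z).le (Nat.cast_nonneg _)

theorem value_le (hab : 2 * a < b) (S : Fin n → Finset (Fin n × Bool)) (v : Fin n)
    (t : Finset (Fin n × Bool)) (ht : Feasible (chain n a b ha hb) v t) :
    value (chain n a b ha hb) S v t ≤ max (value (chain n a b ha hb) S v {(v, false)})
      (value (chain n a b ha hb) S v (FF n v)) := by
  rcases feasible_cases ha hb hab v t ht with rfl | h
  · exact le_max_left _ _
  · refine le_trans ?_ (le_max_right _ _)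
    exact Finset.sum_le_sum_of_subset_of_nonneg h fun z _ _ => term_nonneg ha hb S v z

theorem value_FF_split (S : Fin n → Finset (Fin n × Bool)) (v : Fin n) :
    value (chain n a b ha hb) S v (FF n v) = rB v.val / (others S v (v, true) + 1 : ℕ) +
      ∑ z ∈ (FF n v).erase (v, true),
        (chain n a b ha hb).rate z / (others S v z + 1 : ℕ) := by
  unfold value
  rw [← Finset.add_sum_erase _ _ (self_mem_FF v)]
  simp [chain]

theorem value_FF_ge (S : Fin n → Finset (Fin n × Bool)) (v : Fin n) :
    rB v.val / (others S v (v, true) + 1 : ℕ) ≤ value (chain n a b ha hb) S v (FF n v) := by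
  rw [value_FF_split]
  have h2 : 0 ≤ ∑ z ∈ (FF n v).erase (v, true),
      (chain n a b ha hb).rate z / (others S v z + 1 : ℕ) :=
    Finset.sum_nonneg fun z _ => term_nonneg ha hb S v z
  linarith

theorem value_FF_lt (S : Fin n → Finset (Fin n × Bool)) (v : Fin n) :
    value (chain n a b ha hb) S v (FF n v) <
      rB v.val / (others S v (v, true) + 1 : ℕ) + sc v.val := by
  rw [value_FF_split]
  have hs := sc_pos v.val
  have h1 : ∀ z ∈ (FF n v).erase (v, true),
      (chain n a b ha hb).rate z / (others S v z + 1 : ℕ) ≤ 12 * sc v.val / 25 := by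
    intro z hz
    rw [Finset.mem_erase, mem_FF] at hz
    obtain ⟨hne, h2, h3⟩ := hz
    have h4 : v.val < z.1.val := by
      have h5 : z.1.val ≠ v.val := fun h => hne (by
        ext
        · exact h
        · exact h2)
      rcases h3 with h3 | h3 | ⟨_, h3⟩ | ⟨_, h3⟩ <;> omega
    have h6 := sc_le h4
    have h7 : (chain n a b ha hb).rate z = rB z.1.val := by simp [chain, h2]
    refine le_trans (div_le_self ((chain n a b ha hb).rate_pos z).le ?_) ?_
    · exact_mod_cast Nat.succ_le_succ (Nat.zero_le _)
    · rw [h7]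
      have := rB_le z.1.val
      linarith
  have h2 := Finset.sum_le_card_nsmul ((FF n v).erase (v, true)) _ _ h1
  have h3 : (#((FF n v).erase (v, true)) : ℝ) ≤ 2 := by
    have := Finset.card_erase_of_mem (self_mem_FF v)
    have h4 := card_FF n v
    have : #((FF n v).erase (v, true)) ≤ 2 := by omega
    exact_mod_cast this
  rw [nsmul_eq_mul] at h2
  have h5 : (#((FF n v).erase (v, true)) : ℝ) * (12 * sc v.val / 25) ≤
      2 * (12 * sc v.val / 25) := mul_le_mul_of_nonneg_right h3 (by positivity)
  linarith

theorem others_false (x : ℕ → Bool) (v : Fin n) : others (strat n x) v (v, false) = 0 := by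
  unfold others
  rw [Finset.card_eq_zero, Finset.filter_eq_empty_iff]
  rintro w _ ⟨h1, h2⟩
  unfold strat at h2
  split_ifs at h2
  · exact not_mem_FF w v h2
  · rw [Finset.mem_singleton] at h2
    exact h1 (congrArg Prod.fst h2).symm

theorem others_true (x : ℕ → Bool) (v : Fin n) : others (strat n x) v (v, true) =
    #{w : Fin n | w ≠ v ∧ x w.val = true ∧ Rel w.val v.val} := by
  unfold others
  congr 1
  ext w
  simp only [Finset.mem_filter, Finset.mem_univ, true_and]
  constructor
  · rintro ⟨h1, h2⟩
    unfold strat at h2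
    split_ifs at h2 with h3
    · exact ⟨h1, h3, (mem_FF.1 h2).2⟩
    · rw [Finset.mem_singleton] at h2
      simp at h2
  · rintro ⟨h1, h2, h3⟩
    refine ⟨h1, ?_⟩
    rw [strat, if_pos h2]
    exact mem_FF.2 ⟨rfl, h3⟩

/-! ### The Boolean dynamics -/

/-- At least two of three. -/
def maj (p q r : Bool) : Bool := (p && q) || (q && r) || (p && r)

/-- The state which agent `v` prefers. -/
def want (x : ℕ → Bool) (v : ℕ) : Bool :=
  if v = 0 then true else if v % 3 = 0 then !maj (x (v - 1)) (x (v - 2)) (x (v - 3))
  else !x (v - 1)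

/-- A step of the Boolean dynamics. -/
def Step (n : ℕ) (x x' : ℕ → Bool) : Prop :=
  ∃ v, v < n ∧ x v ≠ want x v ∧ x' = Function.update x v (want x v)

theorem strat_update (x : ℕ → Bool) (v : Fin n) (c : Bool) :
    strat n (Function.update x v.val c) =
      Function.update (strat n x) v (if c then FF n v else {(v, false)}) := by
  funext w
  by_cases hw : w = v
  · subst hw
    simp [strat]
  · have : w.val ≠ v.val := fun h => hw (Fin.ext h)
    simp [strat, hw, this]

/-- An agent which prefers to be active gains by becoming active. -/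
theorem up (x : ℕ → Bool) (v : Fin n) (h : want x v.val = true) :
    value (chain n a b ha hb) (strat n x) v {(v, false)} <
      value (chain n a b ha hb) (strat n x) v (FF n v) := by
  refine lt_of_lt_of_le ?_ (value_FF_ge ha hb _ v)
  rw [value_single, others_false, others_true]
  have hs := sc_pos v.val
  set c := #{w : Fin n | w ≠ v ∧ x w.val = true ∧ Rel w.val v.val} with hc
  by_cases h3 : v.val % 3 = 0 ∧ v.val ≠ 0
  · have hc1 : c ≤ 1 := by
      rw [hc, Finset.card_le_one]
      intro p hp q hq
      simp only [Finset.mem_filter, Finset.mem_univ, true_and] at hp hq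
      obtain ⟨p1, p2, p3⟩ := hp
      obtain ⟨q1, q2, q3⟩ := hq
      have p4 : p.val ≠ v.val := fun h => p1 (Fin.ext h)
      have q4 : q.val ≠ v.val := fun h => q1 (Fin.ext h)
      rw [want, if_neg h3.2, if_pos h3.1] at h
      unfold Rel at p3 q3
      have p5 : p.val = v.val - 1 ∨ p.val = v.val - 2 ∨ p.val = v.val - 3 := by omega
      have q5 : q.val = v.val - 1 ∨ q.val = v.val - 2 ∨ q.val = v.val - 3 := by omega
      apply Fin.ext
      by_contra hne
      rcases p5 with p5 | p5 | p5 <;> rcases q5 with q5 | q5 | q5 <;>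
        first
          | (exact hne (p5.trans q5.symm))
          | (rw [p5] at p2; rw [q5] at q2; rw [p2, q2] at h
             revert h
             cases x (v.val - 1) <;> cases x (v.val - 2) <;> cases x (v.val - 3) <;> decide)
    rw [rA, rB, if_pos h3, if_pos h3]
    have h5 : ((c + 1 : ℕ) : ℝ) ≤ 2 := by exact_mod_cast Nat.succ_le_succ hc1
    have h6 : (0 : ℝ) < ((c + 1 : ℕ) : ℝ) := by positivity
    have h7 : 12 * sc v.val / 2 ≤ 12 * sc v.val / ((c + 1 : ℕ) : ℝ) :=
      div_le_div_of_nonneg_left (by positivity) h6 h5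
    norm_num at h7 ⊢
    linarith
  · have hc0 : c = 0 := by
      rw [hc, Finset.card_eq_zero, Finset.filter_eq_empty_iff]
      rintro w _ ⟨h1, h2, h4⟩
      have h5 : w.val ≠ v.val := fun h => h1 (Fin.ext h)
      unfold Rel at h4
      have h6 : v.val ≠ 0 := by omega
      have h7 : v.val % 3 ≠ 0 := fun h => h3 ⟨h, h6⟩
      have h8 : w.val = v.val - 1 := by omega
      rw [want, if_neg h6, if_neg h7, ← h8, h2] at h
      simp at h
    rw [rA, rB, if_neg h3, if_neg h3, hc0]
    norm_num
    linarith

/-- An agent which prefers to be inactive gains by becoming inactive. -/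
theorem down (x : ℕ → Bool) (v : Fin n) (h : want x v.val = false) :
    value (chain n a b ha hb) (strat n x) v (FF n v) <
      value (chain n a b ha hb) (strat n x) v {(v, false)} := by
  refine lt_of_lt_of_le (value_FF_lt ha hb _ v) ?_
  rw [value_single, others_false, others_true]
  have hs := sc_pos v.val
  set c := #{w : Fin n | w ≠ v ∧ x w.val = true ∧ Rel w.val v.val} with hc
  have hv0 : v.val ≠ 0 := by
    intro h0
    rw [want, if_pos h0] at h
    simp at h
  have hvn := v.isLt
  by_cases h3 : v.val % 3 = 0
  · have hc2 : 2 ≤ c := by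
      rw [want, if_neg hv0, if_pos h3] at h
      have key : ∀ p q : ℕ, (hp : p < v.val) → (hq : q < v.val) → p ≠ q → x p = true →
          x q = true → Rel p v.val → Rel q v.val → 2 ≤ c := by
        intro p q hp hq hpq h1 h2 h4 h5
        rw [hc]
        refine Finset.one_lt_card.2 ⟨⟨p, by omega⟩, ?_, ⟨q, by omega⟩, ?_, ?_⟩
        · simp only [Finset.mem_filter, Finset.mem_univ, true_and]
          exact ⟨fun e => by rw [← e] at hp; exact lt_irrefl _ hp, h1, h4⟩
        · simp only [Finset.mem_filter, Finset.mem_univ, true_and]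
          exact ⟨fun e => by rw [← e] at hq; exact lt_irrefl _ hq, h2, h5⟩
        · intro e
          exact hpq (congrArg Fin.val e)
      have r1 : Rel (v.val - 1) v.val := by unfold Rel; omega
      have r2 : Rel (v.val - 2) v.val := by unfold Rel; omega
      have r3 : Rel (v.val - 3) v.val := by unfold Rel; omega
      have hor : (x (v.val - 1) = true ∧ x (v.val - 2) = true) ∨
          (x (v.val - 2) = true ∧ x (v.val - 3) = true) ∨
          (x (v.val - 1) = true ∧ x (v.val - 3) = true) := by
        revert h
        cases x (v.val - 1) <;> cases x (v.val - 2) <;> cases x (v.val - 3) <;> decide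
      rcases hor with ⟨h1, h2⟩ | ⟨h1, h2⟩ | ⟨h1, h2⟩
      · exact key _ _ (by omega) (by omega) (by omega) h1 h2 r1 r2
      · exact key _ _ (by omega) (by omega) (by omega) h1 h2 r2 r3
      · exact key _ _ (by omega) (by omega) (by omega) h1 h2 r1 r3
    rw [rA, rB, if_pos ⟨h3, hv0⟩, if_pos ⟨h3, hv0⟩]
    have h5 : (3 : ℝ) ≤ ((c + 1 : ℕ) : ℝ) := by exact_mod_cast Nat.succ_le_succ hc2
    have h7 : 12 * sc v.val / ((c + 1 : ℕ) : ℝ) ≤ 12 * sc v.val / 3 :=
      div_le_div_of_nonneg_left (by positivity) (by norm_num) h5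
    norm_num at h7 ⊢
    linarith
  · have hc1 : 1 ≤ c := by
      rw [want, if_neg hv0, if_neg h3] at h
      have h1 : x (v.val - 1) = true := by simpa using h
      rw [hc]
      refine Finset.card_pos.2 ⟨⟨v.val - 1, by omega⟩, ?_⟩
      simp only [Finset.mem_filter, Finset.mem_univ, true_and]
      refine ⟨fun e => ?_, h1, by unfold Rel; omega⟩
      have := congrArg Fin.val e
      simp only at this
      omega
    rw [rA, rB, if_neg (fun h => h3 h.1), if_neg (fun h => h3 h.1)]
    have h5 : (2 : ℝ) ≤ ((c + 1 : ℕ) : ℝ) := by exact_mod_cast Nat.succ_le_succ hc1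
    have h7 : 4 * sc v.val / ((c + 1 : ℕ) : ℝ) ≤ 4 * sc v.val / 2 :=
      div_le_div_of_nonneg_left (by positivity) (by norm_num) h5
    norm_num at h7 ⊢
    linarith

theorem Step.move (hab : 2 * a < b) {x x' : ℕ → Bool} (h : Step n x x') :
    BestResponseMove (chain n a b ha hb) (strat n x) (strat n x') := by
  obtain ⟨v', hv', hx, rfl⟩ := h
  obtain ⟨v, rfl⟩ : ∃ v : Fin n, v.val = v' := ⟨⟨v', hv'⟩, rfl⟩
  cases hw : want x v.val
  · have hxv : x v.val = true := by
      rw [hw] at hx
      simpa using hx
    have hlt := down ha hb x v hw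
    have e1 : strat n (Function.update x v.val false) =
        Function.update (strat n x) v {(v, false)} := by simpa using strat_update x v false
    have e2 : strat n x v = FF n v := by rw [strat, if_pos hxv]
    refine ⟨v, {(v, false)}, feasible_single ha hb v, e1, ?_, ?_⟩
    · intro t ht
      rw [e1, payoff_update, payoff_update]
      refine (value_le ha hb hab (strat n x) v t ht).trans ?_
      rw [max_eq_left hlt.le]
    · rw [e1, payoff_update, payoff_eq, e2]
      exact hlt
  · have hxv : ¬ x v.val = true := by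
      rw [hw] at hx
      exact hx
    have hlt := up ha hb x v hw
    have e1 : strat n (Function.update x v.val true) =
        Function.update (strat n x) v (FF n v) := by simpa using strat_update x v true
    have e2 : strat n x v = {(v, false)} := by rw [strat, if_neg hxv]
    refine ⟨v, FF n v, feasible_FF ha hb v, e1, ?_, ?_⟩
    · intro t ht
      rw [e1, payoff_update, payoff_update]
      refine (value_le ha hb hab (strat n x) v t ht).trans ?_
      rw [max_eq_right hlt.le]
    · rw [e1, payoff_update, payoff_eq, e2]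
      exact hlt

theorem Walk.isPath (hab : 2 * a < b) {L : ℕ} {x y : ℕ → Bool} (h : Walk (Step n) L x y) :
    ∃ path, IsPath (chain n a b ha hb) L path := by
  obtain ⟨p, -, hp⟩ := h.exists_seq
  exact ⟨fun t => strat n (p t), fun t _ j => feasible_strat ha hb _ j,
    fun t ht => (hp t ht).move ha hb hab⟩

end

end Pool.Agent.KS6_87.BR
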