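import Mathlib

set_option autoImplicit false

namespace Pool.Agent.KS6_87.BR

open Finset

/-- An instance of the budgeted sharing game with agents `U` and sites `H`. -/
structure Game (U H : Type) where
  /-- The sites an agent is interested in. -/
  interested : U → Finset H
  /-- The query rate of a site. -/
  rate : H → ℝ
  /-- The cost of a site. -/
  cost : H → ℝ
  /-- The budget of an agent. -/
  budget : U → ℝ
  rate_pos : ∀ i, 0 < rate i
  cost_pos : ∀ i, 0 < cost i
  budget_pos : ∀ j, 0 < budget j

variable {U H : Type} [Fintype U] [DecidableEq U] [DecidableEq H]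

/-- The feasible strategies of agent `j`: sets of sites that `j` is interested in, of total cost at
most the budget of `j`. -/
def Feasible (G : Game U H) (j : U) (s : Finset H) : Prop :=
  s ⊆ G.interested j ∧ ∑ i ∈ s, G.cost i ≤ G.budget j

/-- The number of agents that serve site `i` in the state `S`. -/
def load (S : U → Finset H) (i : H) : ℕ := #{j | i ∈ S j}

/-- What agent `j` receives in the state `S`. -/
noncomputable def payoff (G : Game U H) (S : U → Finset H) (j : U) : ℝ :=
  ∑ i ∈ S j, G.rate i / load S i

/-- A best-response move which strictly increases what the moving agent receives. -/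
def BestResponseMove (G : Game U H) (S S' : U → Finset H) : Prop :=
  ∃ (j : U) (s : Finset H), Feasible G j s ∧ S' = Function.update S j s ∧
    (∀ t, Feasible G j t → payoff G (Function.update S j t) j ≤ payoff G S' j) ∧
    payoff G S j < payoff G S' j

/-- The states `path 0, …, path L` form a best-response path of length `L`. -/
def IsPath (G : Game U H) (L : ℕ) (path : ℕ → U → Finset H) : Prop :=
  (∀ t ≤ L, ∀ j, Feasible G j (path t j)) ∧ ∀ t < L, BestResponseMove G (path t) (path (t + 1))

/-- The number of agents other than `v` that serve `z`. -/
def others (S : U → Finset H) (v : U) (z : H) : ℕ := #{w | w ≠ v ∧ z ∈ S w}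

omit [DecidableEq H] in
theorem others_lt [DecidableEq H] (S : U → Finset H) (v : U) (z : H) :
    others S v z < Fintype.card U := by
  unfold others
  rw [← Finset.card_univ]
  apply Finset.card_lt_card
  refine Finset.ssubset_univ_iff.2 fun h => ?_
  have : v ∈ ({w | w ≠ v ∧ z ∈ S w} : Finset U) := by rw [h]; exact Finset.mem_univ v
  simp at this

theorem load_update_mem (S : U → Finset H) (v : U) (t : Finset H) (z : H)
    (hz : z ∈ t) : load (Function.update S v t) z = others S v z + 1 := by
  unfold load others
  rw [← Finset.card_erase_add_one (a := v)]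
  · congr 2
    ext w
    simp only [Finset.mem_erase, Finset.mem_filter, Finset.mem_univ, true_and]
    constructor
    · rintro ⟨h1, h2⟩
      rw [Function.update_of_ne h1] at h2
      exact ⟨h1, h2⟩
    · rintro ⟨h1, h2⟩
      rw [Function.update_of_ne h1]
      exact ⟨h1, h2⟩
  · simp [hz]

theorem load_update_not_mem (S : U → Finset H) (v : U) (t : Finset H) (z : H)
    (hz : z ∉ t) : load (Function.update S v t) z = others S v z := by
  unfold load others
  congr 1
  ext w
  simp only [Finset.mem_filter, Finset.mem_univ, true_and]
  by_cases hw : w = v
  · subst hw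
    simp [hz]
  · rw [Function.update_of_ne hw]
    simp [hw]

/-- The value of the set `t` for `v`. -/
noncomputable def value (G : Game U H) (S : U → Finset H) (v : U) (t : Finset H) : ℝ :=
  ∑ z ∈ t, G.rate z / (others S v z + 1 : ℕ)

theorem payoff_update (G : Game U H) (S : U → Finset H) (v : U) (t : Finset H) :
    payoff G (Function.update S v t) v = value G S v t := by
  unfold payoff value
  rw [Function.update_self]
  exact Finset.sum_congr rfl fun z hz => by rw [load_update_mem S v t z hz]

theorem payoff_eq (G : Game U H) (S : U → Finset H) (v : U) :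
    payoff G S v = value G S v (S v) := by
  rw [← payoff_update, Function.update_eq_self]

/-! ### Walks of a relation -/

/-- There is a walk of length `n` from `x` to `y`. -/
inductive Walk {α : Type} (R : α → α → Prop) : ℕ → α → α → Prop
  | nil (x : α) : Walk R 0 x x
  | cons {n : ℕ} {x y z : α} : R x y → Walk R n y z → Walk R (n + 1) x z

theorem Walk.trans {α : Type} {R : α → α → Prop} {n m : ℕ} {x y z : α} (h : Walk R n x y)
    (h' : Walk R m y z) : Walk R (n + m) x z := by
  induction h with
  | nil x => simpa using h'
  | cons r _ ih =>
    have := Walk.cons r (ih h')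
    rwa [show _ + m + 1 = _ + 1 + m from by ring] at this

theorem Walk.exists_seq {α : Type} {R : α → α → Prop} {n : ℕ} {x y : α} (h : Walk R n x y) :
    ∃ p : ℕ → α, p 0 = x ∧ ∀ t < n, R (p t) (p (t + 1)) := by
  induction h with
  | nil x => exact ⟨fun _ => x, rfl, fun t ht => absurd ht (Nat.not_lt_zero t)⟩
  | @cons n x y z r _ ih =>
    obtain ⟨p, hp0, hp⟩ := ih
    refine ⟨fun t => if t = 0 then x else p (t - 1), by simp, fun t ht => ?_⟩
    rcases Nat.eq_zero_or_pos t with h0 | h0
    · subst h0
      simpa [hp0] using r
    · have h1 := hp (t - 1) (by omega)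
      rw [show t - 1 + 1 = t by omega] at h1
      simpa [show t ≠ 0 by omega] using h1

end Pool.Agent.KS6_87.BR
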