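import Pool.Agent.KS6_87.BR.Defs

set_option autoImplicit false

namespace Pool.Agent.KS6_87.BR

open Finset

/-- The exchange argument for the potential. -/
theorem sum_rank_lt {H : Type} [DecidableEq H] (s s' : Finset H) (val : H → ℝ) (f : ℝ → ℕ)
    (hf : ∀ x y : ℝ, x ≤ y → f x ≤ f y) (hs : ∀ (x : ℝ) (i : H), x < val i → f x < f (val i))
    (ha : ∀ i ∈ s \ s', ∀ j ∈ s' \ s, val i ≤ val j) (hb : #s ≤ #s')
    (hc : ∑ i ∈ s, val i < ∑ i ∈ s', val i) :
    ∑ i ∈ s, f (val i) < ∑ i ∈ s', f (val i) := by
  have e1 : ∀ {M : Type} [AddCommMonoid M] (g : H → M),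
      ∑ i ∈ s, g i = ∑ i ∈ s \ s', g i + ∑ i ∈ s ∩ s', g i := by
    intro M _ g
    rw [add_comm]
    exact (Finset.sum_inter_add_sum_sdiff s s' g).symm
  have e2 : ∀ {M : Type} [AddCommMonoid M] (g : H → M),
      ∑ i ∈ s', g i = ∑ i ∈ s' \ s, g i + ∑ i ∈ s ∩ s', g i := by
    intro M _ g
    rw [add_comm, Finset.inter_comm]
    exact (Finset.sum_inter_add_sum_sdiff s' s g).symm
  have hpos : ∀ i, 0 < f (val i) := fun i =>
    lt_of_le_of_lt (Nat.zero_le _) (hs (val i - 1) i (by linarith))
  have hcard : #(s \ s') ≤ #(s' \ s) := by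
    have h1 := Finset.card_sdiff_add_card_inter s s'
    have h2 := Finset.card_sdiff_add_card_inter s' s
    rw [Finset.inter_comm] at h2
    omega
  have hc' : ∑ i ∈ s \ s', val i < ∑ i ∈ s' \ s, val i := by
    rw [e1, e2] at hc
    linarith
  rw [e1, e2]
  apply Nat.add_lt_add_right
  rcases Finset.eq_empty_or_nonempty (s \ s') with hA | hA
  · rw [hA, Finset.sum_empty] at hc' ⊢
    have hB : (s' \ s).Nonempty := by
      by_contra h
      rw [Finset.not_nonempty_iff_eq_empty] at h
      rw [h, Finset.sum_empty] at hc'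
      exact lt_irrefl _ hc'
    exact Finset.sum_pos (fun i _ => hpos i) hB
  · obtain ⟨a, haA, hamax⟩ := Finset.exists_max_image (s \ s') val hA
    by_contra hnot
    rw [not_lt] at hnot
    have h1 : ∀ i ∈ s \ s', f (val i) ≤ f (val a) := fun i hi => hf _ _ (hamax i hi)
    have h4 : ∀ j ∈ s' \ s, f (val a) ≤ f (val j) := fun j hj => hf _ _ (ha a haA j hj)
    have h1' : ∑ i ∈ s \ s', f (val i) ≤ #(s \ s') * f (val a) := by
      have := Finset.sum_le_card_nsmul (s \ s') (fun i => f (val i)) (f (val a)) h1
      simpa using this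
    have h4' : #(s' \ s) * f (val a) ≤ ∑ j ∈ s' \ s, f (val j) := by
      have := Finset.card_nsmul_le_sum (s' \ s) (fun j => f (val j)) (f (val a)) h4
      simpa using this
    have h3 : #(s \ s') * f (val a) ≤ #(s' \ s) * f (val a) := Nat.mul_le_mul_right _ hcard
    have q1 : ∑ i ∈ s \ s', f (val i) = ∑ _i ∈ s \ s', f (val a) := by
      rw [Finset.sum_const, smul_eq_mul]
      omega
    have q2 : ∑ _j ∈ s' \ s, f (val a) = ∑ j ∈ s' \ s, f (val j) := by
      rw [Finset.sum_const, smul_eq_mul]
      omega
    have q3 : #(s \ s') = #(s' \ s) := by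
      have h5 : #(s \ s') * f (val a) = #(s' \ s) * f (val a) := by omega
      exact Nat.eq_of_mul_eq_mul_right (hpos a) h5
    have r1 := (Finset.sum_eq_sum_iff_of_le h1).1 q1
    have r2 := (Finset.sum_eq_sum_iff_of_le h4).1 q2
    have v1 : ∀ i ∈ s \ s', val i = val a := by
      intro i hi
      by_contra hne
      have := hs (val i) a (lt_of_le_of_ne (hamax i hi) hne)
      rw [r1 i hi] at this
      exact lt_irrefl _ this
    have v2 : ∀ j ∈ s' \ s, val j = val a := by
      intro j hj
      by_contra hne
      have := hs (val a) j (lt_of_le_of_ne (ha a haA j hj) (Ne.symm hne))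
      rw [r2 j hj] at this
      exact lt_irrefl _ this
    rw [Finset.sum_congr rfl v1, Finset.sum_congr rfl v2, Finset.sum_const, Finset.sum_const,
      q3] at hc'
    exact lt_irrefl _ hc'

section

variable {U H : Type} [Fintype U] [DecidableEq U] [Fintype H] [DecidableEq H] (G : Game U H)

/-- The rank of a number among the possible shares of a site. -/
noncomputable def rk (x : ℝ) : ℕ := by
  classical
  exact #{p : H × Fin (Fintype.card U) | G.rate p.1 / (p.2.val + 1 : ℕ) ≤ x}

omit [DecidableEq U] [DecidableEq H] in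
theorem rk_mono (x y : ℝ) (h : x ≤ y) : rk G x ≤ rk G y := by
  classical
  unfold rk
  apply Finset.card_le_card
  intro p hp
  simp only [Finset.mem_filter, Finset.mem_univ, true_and] at hp ⊢
  exact hp.trans h

omit [DecidableEq U] [DecidableEq H] in
theorem rk_le (x : ℝ) : rk G x ≤ Fintype.card U * Fintype.card H := by
  classical
  unfold rk
  refine (Finset.card_le_univ _).trans ?_
  rw [Fintype.card_prod, Fintype.card_fin, mul_comm]

omit [DecidableEq U] [DecidableEq H] in
theorem rk_lt (x : ℝ) (i : H) (t : ℕ) (ht : t < Fintype.card U)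
    (h : x < G.rate i / (t + 1 : ℕ)) : rk G x < rk G (G.rate i / (t + 1 : ℕ)) := by
  classical
  unfold rk
  apply Finset.card_lt_card
  rw [Finset.ssubset_iff_of_subset]
  · refine ⟨(i, ⟨t, ht⟩), ?_, ?_⟩
    · simp
    · simp only [Finset.mem_filter, Finset.mem_univ, true_and, not_le]
      exact h
  · intro p hp
    simp only [Finset.mem_filter, Finset.mem_univ, true_and] at hp ⊢
    exact hp.trans h.le

/-- The rank potential. -/
noncomputable def pot (S : U → Finset H) : ℕ :=
  ∑ i, ∑ t ∈ range (load S i), rk G (G.rate i / (t + 1 : ℕ))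

omit [DecidableEq U] in
theorem pot_le (S : U → Finset H) : pot G S ≤ (Fintype.card U * Fintype.card H) ^ 2 := by
  unfold pot
  calc ∑ i, ∑ t ∈ range (load S i), rk G (G.rate i / (t + 1 : ℕ))
      ≤ ∑ _i : H, Fintype.card U * (Fintype.card U * Fintype.card H) := by
        refine Finset.sum_le_sum fun i _ => ?_
        have h1 := Finset.sum_le_card_nsmul (range (load S i))
          (fun t => rk G (G.rate i / (t + 1 : ℕ))) (Fintype.card U * Fintype.card H)
          (fun t _ => rk_le G _)
        rw [Finset.card_range, smul_eq_mul] at h1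
        refine h1.trans (Nat.mul_le_mul_right _ ?_)
        exact Finset.card_le_univ _
    _ = (Fintype.card U * Fintype.card H) ^ 2 := by
        rw [Finset.sum_const, Finset.card_univ, smul_eq_mul]
        ring

theorem pot_update (S : U → Finset H) (j : U) (t : Finset H) :
    pot G (Function.update S j t) =
      ∑ i, ∑ r ∈ range (others S j i), rk G (G.rate i / (r + 1 : ℕ)) +
        ∑ i ∈ t, rk G (G.rate i / (others S j i + 1 : ℕ)) := by
  classical
  unfold pot
  have h : ∀ i, ∑ r ∈ range (load (Function.update S j t) i), rk G (G.rate i / (r + 1 : ℕ)) =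
      ∑ r ∈ range (others S j i), rk G (G.rate i / (r + 1 : ℕ)) +
        if i ∈ t then rk G (G.rate i / (others S j i + 1 : ℕ)) else 0 := by
    intro i
    by_cases hi : i ∈ t
    · rw [load_update_mem S j t i hi, Finset.sum_range_succ, if_pos hi]
    · rw [load_update_not_mem S j t i hi, if_neg hi, add_zero]
  rw [Finset.sum_congr rfl fun i _ => h i, Finset.sum_add_distrib]
  congr 1
  rw [← Finset.sum_filter]
  congr 1
  ext i
  simp

variable {G}

theorem pot_lt {c : ℝ} (hc : ∀ i, G.cost i = c) {S S' : U → Finset H}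
    (hS : ∀ j, Feasible G j (S j)) (h : BestResponseMove G S S') : pot G S < pot G S' := by
  obtain ⟨j, s', hs', rfl, hopt, hlt⟩ := h
  rw [payoff_update, payoff_eq] at hlt
  have hopt' : ∀ t, Feasible G j t → value G S j t ≤ value G S j s' := by
    intro t ht
    have := hopt t ht
    rwa [payoff_update, payoff_update] at this
  have hself : S = Function.update S j (S j) := (Function.update_eq_self j S).symm
  have hsum : ∀ t : Finset H, ∑ i ∈ t, G.cost i = #t * c := by
    intro t
    rw [Finset.sum_congr rfl fun i _ => hc i, Finset.sum_const, nsmul_eq_mul]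
  set val : H → ℝ := fun i => G.rate i / (others S j i + 1 : ℕ) with hval
  have hvpos : ∀ i, 0 < val i := fun i => div_pos (G.rate_pos i) (by positivity)
  conv_lhs => rw [hself]
  rw [pot_update, pot_update]
  apply Nat.add_lt_add_left
  have hsj := hS j
  refine sum_rank_lt (S j) s' val (rk G) (rk_mono G)
    (fun x i hx => rk_lt G x i _ (others_lt S j i) hx) ?_ ?_ hlt
  · intro i hi i' hi'
    rw [Finset.mem_sdiff] at hi hi'
    have h1 : Feasible G j (insert i (s'.erase i')) := by
      refine ⟨?_, ?_⟩
      · intro z hz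
        rcases Finset.mem_insert.1 hz with rfl | hz
        · exact hsj.1 hi.1
        · exact hs'.1 (Finset.mem_of_mem_erase hz)
      · rw [hsum, Finset.card_insert_of_notMem (fun h => hi.2 (Finset.mem_of_mem_erase h)),
          Finset.card_erase_add_one hi'.1, ← hsum]
        exact hs'.2
    have h2 := hopt' _ h1
    unfold value at h2
    rw [Finset.sum_insert (fun h => hi.2 (Finset.mem_of_mem_erase h)),
      ← Finset.add_sum_erase s' _ hi'.1] at h2
    exact le_of_add_le_add_right h2
  · by_contra hcard
    rw [not_le] at hcard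
    obtain ⟨i, hi, hi'⟩ := Finset.exists_mem_notMem_of_card_lt_card hcard
    have h1 : Feasible G j (insert i s') := by
      refine ⟨?_, ?_⟩
      · intro z hz
        rcases Finset.mem_insert.1 hz with rfl | hz
        · exact hsj.1 hi
        · exact hs'.1 hz
      · refine le_trans ?_ hsj.2
        rw [hsum, hsum, Finset.card_insert_of_notMem hi']
        have h3 : ((#s' + 1 : ℕ) : ℝ) ≤ (#(S j) : ℝ) := by exact_mod_cast hcard
        exact mul_le_mul_of_nonneg_right h3 (by rw [← hc i]; exact (G.cost_pos i).le)
    have h2 := hopt' _ h1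
    unfold value at h2
    rw [Finset.sum_insert hi'] at h2
    have := hvpos i
    simp only [hval] at this
    linarith

/-- If all costs are equal, every best-response path has at most `(n m) ^ 2` moves. -/
theorem equal_costs {c : ℝ} (hc : ∀ i, G.cost i = c) {L : ℕ} {path : ℕ → U → Finset H}
    (h : IsPath G L path) : L ≤ (Fintype.card U * Fintype.card H) ^ 2 := by
  have key : ∀ t, t ≤ L → t ≤ pot G (path t) := by
    intro t
    induction t with
    | zero => intro _; exact Nat.zero_le _
    | succ t ih =>
      intro ht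
      have h1 := ih (by omega)
      have h2 := pot_lt hc (h.1 t (by omega)) (h.2 t (by omega))
      omega
  exact (key L le_rfl).trans (pot_le G _)

end

end Pool.Agent.KS6_87.BR
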