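import Pool.Agent.KS6_87.BR.Defs

set_option autoImplicit false

namespace Pool.Agent.KS6_87.BR

open Finset

variable {U H E : Type} [Fintype U] [DecidableEq U] [DecidableEq H] [DecidableEq E]

/-- Additional sites in which nobody is interested. -/
noncomputable def pad (G : Game U H) (E : Type) (c : ℝ) (hc : 0 < c) : Game U (H ⊕ E) where
  interested v := (G.interested v).map Function.Embedding.inl
  rate := Sum.elim G.rate fun _ => 1
  cost := Sum.elim G.cost fun _ => c
  budget := G.budget
  rate_pos i := by
    rcases i with i | i
    · exact G.rate_pos i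
    · exact one_pos
  cost_pos i := by
    rcases i with i | i
    · exact G.cost_pos i
    · exact hc
  budget_pos := G.budget_pos

/-- The corresponding state. -/
def lift (E : Type) (S : U → Finset H) (v : U) : Finset (H ⊕ E) :=
  (S v).map Function.Embedding.inl

variable {G : Game U H} {c : ℝ} (hc : 0 < c)

theorem feasible_lift (j : U) (t : Finset H) (h : Feasible G j t) :
    Feasible (pad G E c hc) j (t.map Function.Embedding.inl) := by
  refine ⟨Finset.map_subset_map.2 h.1, ?_⟩
  rw [Finset.sum_map]
  exact h.2

theorem exists_of_feasible (j : U) (t : Finset (H ⊕ E)) (h : Feasible (pad G E c hc) j t) :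
    ∃ t' : Finset H, t = t'.map Function.Embedding.inl ∧ Feasible G j t' := by
  obtain ⟨t', ht', rfl⟩ := Finset.subset_map_iff.1 h.1
  refine ⟨t', rfl, ht', ?_⟩
  have := h.2
  rw [Finset.sum_map] at this
  exact this

theorem load_lift (S : U → Finset H) (i : H) :
    load (lift E S) (Sum.inl i) = load S i := by
  unfold load lift
  congr 1
  ext v
  simp

theorem payoff_lift (S : U → Finset H) (j : U) :
    payoff (pad G E c hc) (lift E S) j = payoff G S j := by
  unfold payoff
  rw [lift, Finset.sum_map]
  refine Finset.sum_congr rfl fun i _ => ?_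
  rw [Function.Embedding.inl_apply, load_lift]
  rfl

theorem lift_update (S : U → Finset H) (j : U) (t : Finset H) :
    lift E (Function.update S j t) =
      Function.update (lift E S) j (t.map Function.Embedding.inl) := by
  funext v
  by_cases h : v = j
  · subst h
    simp [lift]
  · simp [lift, h]

theorem move_lift {S S' : U → Finset H} (h : BestResponseMove G S S') :
    BestResponseMove (pad G E c hc) (lift E S) (lift E S') := by
  obtain ⟨j, s, hs, rfl, hopt, hlt⟩ := h
  refine ⟨j, s.map Function.Embedding.inl, feasible_lift hc j s hs, lift_update S j s, ?_, ?_⟩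
  · intro t ht
    obtain ⟨t', rfl, ht'⟩ := exists_of_feasible hc j t ht
    rw [← lift_update, payoff_lift, payoff_lift]
    exact hopt t' ht'
  · rw [payoff_lift, payoff_lift]
    exact hlt

theorem IsPath.lift {L : ℕ} {path : ℕ → U → Finset H} (h : IsPath G L path) :
    IsPath (pad G E c hc) L (fun t => BR.lift E (path t)) :=
  ⟨fun t ht j => feasible_lift hc j _ (h.1 t ht j), fun t ht => move_lift hc (h.2 t ht)⟩

end Pool.Agent.KS6_87.BR
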