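import Pool.Agent.KS6_87.BR.Chain

set_option autoImplicit false

namespace Pool.Agent.KS6_87.BR

open Finset

/-- The length of the cascade through `d` levels. -/
def len : ℕ → ℕ
  | 0 => 0
  | d + 1 => 3 + 3 * len d

theorem len_eq (d : ℕ) : 2 * len d + 3 = 3 ^ (d + 1) := by
  induction d with
  | zero => rfl
  | succ d ih =>
    rw [len, pow_succ, ← ih]
    ring

theorem want_congr {x y : ℕ → Bool} {v : ℕ} (h : v ≠ 0 → x (v - 1) = y (v - 1) ∧
    (v % 3 = 0 → x (v - 2) = y (v - 2) ∧ x (v - 3) = y (v - 3))) : want x v = want y v := by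
  unfold want
  by_cases h0 : v = 0
  · rw [if_pos h0, if_pos h0]
  · rw [if_neg h0, if_neg h0, (h h0).1]
    by_cases h3 : v % 3 = 0
    · rw [if_pos h3, if_pos h3, ((h h0).2 h3).1, ((h h0).2 h3).2]
    · rw [if_neg h3, if_neg h3]

theorem want_one (x : ℕ → Bool) (i : ℕ) : want x (3 * i + 1) = !x (3 * i) := by
  rw [want, if_neg (by omega), if_neg (by omega)]
  rfl

theorem want_two (x : ℕ → Bool) (i : ℕ) : want x (3 * i + 2) = !x (3 * i + 1) := by
  rw [want, if_neg (by omega), if_neg (by omega)]
  rfl

theorem want_next (x : ℕ → Bool) (i : ℕ) : want x (3 * (i + 1)) =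
    !maj (x (3 * i + 2)) (x (3 * i + 1)) (x (3 * i)) := by
  rw [want, if_neg (by omega), if_pos (by omega), show 3 * (i + 1) - 1 = 3 * i + 2 by omega,
    show 3 * (i + 1) - 2 = 3 * i + 1 by omega, show 3 * (i + 1) - 3 = 3 * i by omega]

theorem bool_ne {p q : Bool} (h : p ≠ q) : q = !p := by
  cases p <;> cases q <;> simp_all

/-- One flip inside level `i` followed by the cascade in the levels above. -/
theorem flip_run (n k d : ℕ) (hk : 3 * k ≤ n)
    (IH : ∀ i, i + d = k → ∀ x : ℕ → Bool, (d ≠ 0 → x (3 * i) ≠ want x (3 * i)) →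
      (∀ v, 3 * i < v → v < 3 * k → x v = want x v) →
      ∃ y, Walk (Step n) (len d) x y ∧ (∀ v, v < 3 * i → y v = x v) ∧
        ∀ v, 3 * i ≤ v → v < 3 * k → y v = want y v)
    (i : ℕ) (hi : i + (d + 1) = k) (x : ℕ → Bool) (u : ℕ) (hu1 : 3 * i ≤ u) (hu2 : u < 3 * i + 3)
    (hx : x u ≠ want x u)
    (hm : maj (Function.update x u (!x u) (3 * i + 2)) (Function.update x u (!x u) (3 * i + 1))
      (Function.update x u (!x u) (3 * i)) ≠ maj (x (3 * i + 2)) (x (3 * i + 1)) (x (3 * i)))
    (hrest : ∀ v, 3 * (i + 1) ≤ v → v < 3 * k → x v = want x v) :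
    ∃ y, Walk (Step n) (len d + 1) x y ∧
      (∀ v, v < 3 * (i + 1) → y v = Function.update x u (!x u) v) ∧
      ∀ v, 3 * (i + 1) ≤ v → v < 3 * k → y v = want y v := by
  have hs : Step n x (Function.update x u (!x u)) := by
    refine ⟨u, by omega, hx, ?_⟩
    rw [bool_ne hx]
  set x1 := Function.update x u (!x u) with hx1
  have hne : ∀ v, v ≠ u → x1 v = x v := fun v hv => by rw [hx1, Function.update_of_ne hv]
  obtain ⟨y, hy1, hy2, hy3⟩ := IH (i + 1) (by omega) x1 (by
    intro hd
    have h1 := hrest (3 * (i + 1)) le_rfl (by omega)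
    rw [want_next] at h1 ⊢
    rw [hne _ (by omega), h1]
    intro h2
    apply hm
    have := congrArg (fun b : Bool => !b) h2
    simpa using this.symm) (by
    intro v hv1 hv2
    rw [hne v (by omega), hrest v hv1.le hv2]
    apply want_congr
    intro _
    exact ⟨(hne _ (by omega)).symm, fun _ => ⟨(hne _ (by omega)).symm, (hne _ (by omega)).symm⟩⟩)
  exact ⟨y, Walk.cons hs hy1, hy2, hy3⟩

theorem run (n k : ℕ) (hk : 3 * k ≤ n) (d : ℕ) : ∀ i, i + d = k → ∀ x : ℕ → Bool,
    (d ≠ 0 → x (3 * i) ≠ want x (3 * i)) →
      (∀ v, 3 * i < v → v < 3 * k → x v = want x v) →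
      ∃ y, Walk (Step n) (len d) x y ∧ (∀ v, v < 3 * i → y v = x v) ∧
        ∀ v, 3 * i ≤ v → v < 3 * k → y v = want y v := by
  induction d with
  | zero =>
    intro i hi x _ _
    exact ⟨x, Walk.nil x, fun _ _ => rfl, fun v h1 h2 => by omega⟩
  | succ d IH =>
    intro i hi x h0 hrest
    have hx0 := h0 (by omega)
    obtain ⟨c, hc⟩ : ∃ c, x (3 * i) = c := ⟨_, rfl⟩
    have h1 : x (3 * i + 1) = !c := by
      rw [hrest _ (by omega) (by omega), want_one, hc]
    have h2 : x (3 * i + 2) = c := by
      rw [hrest _ (by omega) (by omega), want_two, h1]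
      simp
    -- first flip
    obtain ⟨y1, w1, a1, r1⟩ := flip_run n k d hk IH i hi x (3 * i) le_rfl (by omega) hx0 (by
      rw [Function.update_of_ne (by omega), Function.update_of_ne (by omega),
        Function.update_self, hc, h1, h2]
      cases c <;> decide) (fun v hv1 hv2 => hrest v (by omega) hv2)
    have b0 : y1 (3 * i) = !c := by
      rw [a1 _ (by omega), Function.update_self, hc]
    have b1 : y1 (3 * i + 1) = !c := by
      rw [a1 _ (by omega), Function.update_of_ne (by omega), h1]
    have b2 : y1 (3 * i + 2) = c := by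
      rw [a1 _ (by omega), Function.update_of_ne (by omega), h2]
    -- second flip
    obtain ⟨y2, w2, a2, r2⟩ := flip_run n k d hk IH i hi y1 (3 * i + 1) (by omega) (by omega) (by
      rw [want_one, b0, b1]
      cases c <;> decide) (by
      rw [Function.update_of_ne (by omega), Function.update_self,
        Function.update_of_ne (by omega), b0, b1, b2]
      cases c <;> decide) r1
    have c0 : y2 (3 * i) = !c := by
      rw [a2 _ (by omega), Function.update_of_ne (by omega), b0]
    have c1 : y2 (3 * i + 1) = c := by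
      rw [a2 _ (by omega), Function.update_self, b1]
      simp
    have c2 : y2 (3 * i + 2) = c := by
      rw [a2 _ (by omega), Function.update_of_ne (by omega), b2]
    -- third flip
    obtain ⟨y3, w3, a3, r3⟩ := flip_run n k d hk IH i hi y2 (3 * i + 2) (by omega) (by omega) (by
      rw [want_two, c1, c2]
      cases c <;> decide) (by
      rw [Function.update_self, Function.update_of_ne (by omega),
        Function.update_of_ne (by omega), c0, c1, c2]
      cases c <;> decide) r2
    have d0 : y3 (3 * i) = !c := by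
      rw [a3 _ (by omega), Function.update_of_ne (by omega), c0]
    have d1 : y3 (3 * i + 1) = c := by
      rw [a3 _ (by omega), Function.update_of_ne (by omega), c1]
    have d2 : y3 (3 * i + 2) = !c := by
      rw [a3 _ (by omega), Function.update_self, c2]
    have below : ∀ v, v < 3 * i → y3 v = x v := by
      intro v hv
      rw [a3 _ (by omega), Function.update_of_ne (by omega), a2 _ (by omega),
        Function.update_of_ne (by omega), a1 _ (by omega), Function.update_of_ne (by omega)]
    refine ⟨y3, ?_, below, ?_⟩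
    · have := (w1.trans w2).trans w3
      rwa [show len d + 1 + (len d + 1) + (len d + 1) = len (d + 1) by rw [len]; ring] at this
    · intro v hv1 hv2
      rcases Nat.lt_or_ge v (3 * (i + 1)) with hv3 | hv3
      · have hcases : v = 3 * i ∨ v = 3 * i + 1 ∨ v = 3 * i + 2 := by omega
        rcases hcases with rfl | rfl | rfl
        · have e1 : want y3 (3 * i) = want x (3 * i) := by
            apply want_congr
            intro hne
            exact ⟨below _ (by omega), fun _ => ⟨below _ (by omega), below _ (by omega)⟩⟩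
          rw [e1, bool_ne hx0, hc, d0]
        · rw [want_one, d0, d1]
          simp
        · rw [want_two, d1, d2]
      · exact r3 v hv3 hv2

/-- The initial state. -/
def start (v : ℕ) : Bool := xor (decide (v / 3 % 2 = 1)) (decide (v % 3 = 1))

theorem start_rest (v : ℕ) (hv : 0 < v) : start v = want start v := by
  obtain ⟨i, hi⟩ : ∃ i, v = 3 * i + 1 ∨ v = 3 * i + 2 ∨ v = 3 * (i + 1) := by
    refine ⟨(v - 1) / 3, ?_⟩
    omega
  rcases hi with rfl | rfl | rfl
  · rw [want_one]
    unfold start
    rw [show (3 * i + 1) / 3 = i by omega, show (3 * i) / 3 = i by omega,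
      show (3 * i + 1) % 3 = 1 by omega, show (3 * i) % 3 = 0 by omega]
    cases decide (i % 2 = 1) <;> decide
  · rw [want_two]
    unfold start
    rw [show (3 * i + 1) / 3 = i by omega, show (3 * i + 2) / 3 = i by omega,
      show (3 * i + 1) % 3 = 1 by omega, show (3 * i + 2) % 3 = 2 by omega]
    cases decide (i % 2 = 1) <;> decide
  · rw [want_next]
    unfold start
    rw [show (3 * i + 1) / 3 = i by omega, show (3 * i + 2) / 3 = i by omega,
      show (3 * i) / 3 = i by omega, show (3 * (i + 1)) / 3 = i + 1 by omega,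
      show (3 * i + 1) % 3 = 1 by omega, show (3 * i + 2) % 3 = 2 by omega,
      show (3 * i) % 3 = 0 by omega, show (3 * (i + 1)) % 3 = 0 by omega]
    rcases Nat.mod_two_eq_zero_or_one i with h | h
    · rw [h, show (i + 1) % 2 = 1 by omega]
      decide
    · rw [h, show (i + 1) % 2 = 0 by omega]
      decide

/-- For every `n` the chain with `n` agents has a best-response path with
`(3 ^ (n / 3 + 1) - 3) / 2` moves. -/
theorem chain_path (n : ℕ) {a b : ℝ} (ha : 0 < a) (hb : 0 < b) (hab : 2 * a < b) :
    ∃ path, IsPath (chain n a b ha hb) (len (n / 3)) path := by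
  obtain ⟨y, hy, -⟩ := run n (n / 3) (by omega) (n / 3) 0 (by omega) start (by
    intro _
    decide) (fun v hv _ => start_rest v (by omega))
  exact hy.isPath ha hb hab

theorem card_interested (n : ℕ) {a b : ℝ} (ha : 0 < a) (hb : 0 < b) (v : Fin n) :
    #((chain n a b ha hb).interested v) ≤ 4 := by
  refine (Finset.card_insert_le _ _).trans ?_
  have := card_FF n v
  omega

theorem card_fans (n : ℕ) {a b : ℝ} (ha : 0 < a) (hb : 0 < b) (z : Fin n × Bool) :
    #{j | z ∈ (chain n a b ha hb).interested j} ≤ 4 := by
  have h : #{j | z ∈ (chain n a b ha hb).interested j} ≤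
      #({z.1.val, z.1.val - 1, z.1.val - 2, z.1.val - 3} : Finset ℕ) := by
    refine Finset.card_le_card_of_injOn (fun j => j.val) ?_ ?_
    · intro j hj
      simp only [Finset.coe_filter, Finset.mem_univ, true_and, Set.mem_ofPred_eq] at hj
      simp only [Finset.coe_insert, Finset.coe_singleton, Set.mem_insert_iff,
        Set.mem_singleton_iff]
      rcases Finset.mem_insert.1 hj with h | h
      · rw [h]
        exact Or.inl rfl
      · have h2 := (mem_FF.1 h).2
        unfold Rel at h2
        omega
    · intro p _ q _ h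
      exact Fin.ext h
  exact h.trans Finset.card_le_four

end Pool.Agent.KS6_87.BR
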